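import Pool.Agent.H8.PU.Targets

/-!
# Row EX: the gadget graph
-/

set_option autoImplicit false

namespace Pool.Agent.H28.PU

open Pool.Agent.H8.PU Pool.Agent.H8.PL

section iso

variable {V V' : Type} (e : V ≃ V') (G : SimpleGraph V) (G' : SimpleGraph V')
  (h : ∀ a b, G.Adj a b ↔ G'.Adj (e a) (e b))

include h

theorem card_iso (p : V → Prop) (p' : V' → Prop) (hp : ∀ y, p y ↔ p' (e y)) (x : V) :
    {y | G'.Adj (e x) y ∧ p' y}.ncard = {y | G.Adj x y ∧ p y}.ncard := by
  have h1 : {y | G'.Adj (e x) y ∧ p' y} = e '' {y | G.Adj x y ∧ p y} := by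
    ext y
    simp only [Set.mem_setOf_eq, Set.mem_image]
    constructor
    · rintro ⟨hy, hpy⟩
      refine ⟨e.symm y, ⟨?_, ?_⟩, e.apply_symm_apply y⟩
      · rw [h, e.apply_symm_apply]
        exact hy
      · rw [hp, e.apply_symm_apply]
        exact hpy
    · rintro ⟨z, ⟨hz, hpz⟩, rfl⟩
      exact ⟨(h _ _).1 hz, (hp _).1 hpz⟩
  rw [h1, Set.ncard_image_of_injective _ e.injective]

theorem dg_iso (x : V) : dg G' (e x) = dg G x := by
  have h1 := card_iso e G G' h (fun _ => True) (fun _ => True) (fun _ => Iff.rfl) x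
  simp only [and_true] at h1
  exact h1

theorem nb_iso (k : ℕ) (x : V) : nb G' k (e x) = nb G k x :=
  card_iso e G G' h (fun y => dg G y = k) (fun y => dg G' y = k)
    (fun y => by rw [dg_iso e G G' h]) x

theorem isG_iso (M : ℕ) (hG : IsG G M) : IsG G' M where
  pos x' := by
    obtain ⟨x, rfl⟩ := e.surjective x'
    rw [dg_iso e G G' h]
    exact hG.pos x
  leaf x' hx' y' hy' := by
    obtain ⟨x, rfl⟩ := e.surjective x'
    obtain ⟨y, rfl⟩ := e.surjective y'
    rw [dg_iso e G G' h] at hx' ⊢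
    exact hG.leaf x hx' y ((h _ _).2 hy')
  mid x' hx' := by
    obtain ⟨x, rfl⟩ := e.surjective x'
    rw [dg_iso e G G' h] at hx'
    rw [nb_iso e G G' h, card_iso e G G' h (fun y => 3 ≤ dg G y) (fun y => 3 ≤ dg G' y)
      (fun y => by rw [dg_iso e G G' h])]
    exact hG.mid x hx'
  cor x' hx' := by
    obtain ⟨x, rfl⟩ := e.surjective x'
    rw [dg_iso e G G' h] at hx'
    rw [nb_iso e G G' h, nb_iso e G G' h]
    exact hG.cor x hx'

end iso

/-- the parent of a gadget vertex -/
def par (k j : ℕ) : ℕ := if j % 2 = 0 ∧ j ≤ 2 * k then j - 1 else 0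

theorem par_lt (k j : ℕ) (hj : 1 ≤ j) : par k j < j := by
  unfold par
  split_ifs <;> omega

/-- the gadget graph on the product type -/
def HA (N M : ℕ) (G : SimpleGraph (Fin N)) (c : Fin N → ℕ) :
    SimpleGraph (Fin (2 * M + 1) × Fin N) where
  Adj a b := (a.1.val = 0 ∧ b.1.val = 0 ∧ G.Adj a.2 b.2) ∨
    (a.2 = b.2 ∧ ((1 ≤ b.1.val ∧ a.1.val = par (c a.2) b.1.val) ∨
      (1 ≤ a.1.val ∧ b.1.val = par (c a.2) a.1.val)))
  symm := ⟨by
    rintro a b (⟨h1, h2, h3⟩ | ⟨h1, h2 | h2⟩)
    · exact Or.inl ⟨h2, h1, h3.symm⟩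
    · rw [h1] at h2
      exact Or.inr ⟨h1.symm, Or.inr h2⟩
    · rw [h1] at h2
      exact Or.inr ⟨h1.symm, Or.inl h2⟩⟩
  loopless := ⟨by
    rintro a (⟨h1, h2, h3⟩ | ⟨h1, h2 | h2⟩)
    · exact G.loopless.irrefl _ h3
    · exact absurd h2.2 (par_lt _ _ h2.1).ne'
    · exact absurd h2.2 (par_lt _ _ h2.1).ne'⟩

section main

variable {N M : ℕ} (G : SimpleGraph (Fin N)) (c : Fin N → ℕ)

theorem adj_gad (j : Fin (2 * M + 1)) (x : Fin N) (hj : 1 ≤ j.val)
    (b : Fin (2 * M + 1) × Fin N) : (HA N M G c).Adj (j, x) b ↔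
      x = b.2 ∧ ((1 ≤ b.1.val ∧ j.val = par (c x) b.1.val) ∨ b.1.val = par (c x) j.val) := by
  constructor
  · rintro (⟨h1, h2, h3⟩ | ⟨h1, h2 | h2⟩)
    · simp only at h1
      omega
    · exact ⟨h1, Or.inl h2⟩
    · exact ⟨h1, Or.inr h2.2⟩
  · rintro ⟨h1, h2 | h2⟩
    · exact Or.inr ⟨h1, Or.inl h2⟩
    · exact Or.inr ⟨h1, Or.inr ⟨hj, h2⟩⟩

theorem adj_cor (x : Fin N) (b : Fin (2 * M + 1) × Fin N) :
    (HA N M G c).Adj (0, x) b ↔
      (b.1.val = 0 ∧ G.Adj x b.2) ∨ (x = b.2 ∧ 1 ≤ b.1.val ∧ par (c x) b.1.val = 0) := by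
  constructor
  · rintro (⟨h1, h2, h3⟩ | ⟨h1, h2 | h2⟩)
    · exact Or.inl ⟨h2, h3⟩
    · exact Or.inr ⟨h1, h2.1, by simpa using h2.2.symm⟩
    · have := h2.1
      simp at this
  · rintro (⟨h1, h2⟩ | ⟨h1, h2, h3⟩)
    · exact Or.inl ⟨by simp, h1, h2⟩
    · exact Or.inr ⟨h1, Or.inl ⟨h2, by simpa using h3.symm⟩⟩

theorem nbA (hM : ∀ x, c x ≤ M) (j : Fin (2 * M + 1)) (x : Fin N) (h1 : j.val % 2 = 1)
    (h2 : j.val < 2 * c x) (b : Fin (2 * M + 1) × Fin N) :
    (HA N M G c).Adj (j, x) b ↔
      b = (⟨j.val + 1, by have := hM x; omega⟩, x) ∨ b = (0, x) := by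
  rw [adj_gad G c j x (by omega) b]
  have hp : par (c x) j.val = 0 := by
    unfold par
    rw [if_neg]
    omega
  rw [hp]
  constructor
  · rintro ⟨h3, ⟨h4, h5⟩ | h5⟩
    · left
      unfold par at h5
      split_ifs at h5 with h6
      · refine Prod.ext (Fin.ext ?_) h3.symm
        simp only
        omega
      · omega
    · right
      exact Prod.ext (Fin.ext (by simpa using h5)) h3.symm
  · rintro (rfl | rfl)
    · refine ⟨rfl, Or.inl ⟨by simp, ?_⟩⟩
      simp only
      unfold par
      rw [if_pos ⟨by omega, by omega⟩]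
      omega
    · exact ⟨rfl, Or.inr (by simp)⟩

theorem nbB (j : Fin (2 * M + 1)) (x : Fin N) (hj : 1 ≤ j.val)
    (h1 : ¬(j.val % 2 = 1 ∧ j.val < 2 * c x)) (b : Fin (2 * M + 1) × Fin N) :
    (HA N M G c).Adj (j, x) b ↔
      b = (⟨par (c x) j.val, (par_lt _ _ hj).trans j.isLt⟩, x) := by
  rw [adj_gad G c j x hj b]
  constructor
  · rintro ⟨h3, ⟨h4, h5⟩ | h5⟩
    · exfalso
      unfold par at h5
      split_ifs at h5 with h6
      · apply h1
        omega
      · omega
    · exact Prod.ext (Fin.ext h5) h3.symm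
  · rintro rfl
    exact ⟨rfl, Or.inr rfl⟩

theorem dgA (hM : ∀ x, c x ≤ M) (j : Fin (2 * M + 1)) (x : Fin N) (h1 : j.val % 2 = 1)
    (h2 : j.val < 2 * c x) : dg (HA N M G c) (j, x) = 2 := by
  unfold dg
  have h3 : (HA N M G c).neighborSet (j, x) =
      {(⟨j.val + 1, by have := hM x; omega⟩, x), (0, x)} := by
    ext b
    rw [SimpleGraph.mem_neighborSet, nbA G c hM j x h1 h2 b]
    simp
  rw [h3, Set.ncard_pair]
  intro h4
  have := congrArg (fun p : Fin (2 * M + 1) × Fin N => p.1.val) h4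
  simp at this

theorem dgB (j : Fin (2 * M + 1)) (x : Fin N) (hj : 1 ≤ j.val)
    (h1 : ¬(j.val % 2 = 1 ∧ j.val < 2 * c x)) : dg (HA N M G c) (j, x) = 1 := by
  unfold dg
  have h3 : (HA N M G c).neighborSet (j, x) =
      {(⟨par (c x) j.val, (par_lt _ _ hj).trans j.isLt⟩, x)} := by
    ext b
    rw [SimpleGraph.mem_neighborSet, nbB G c j x hj h1 b]
    simp
  rw [h3, Set.ncard_singleton]

theorem dg0 (hM3 : 3 ≤ M) (x : Fin N) : 3 ≤ dg (HA N M G c) (0, x) := by
  unfold dg
  have h1 : ∀ i : ℕ, (hi : i < 3) → ((⟨2 * i + 1, by omega⟩ : Fin (2 * M + 1)), x) ∈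
      (HA N M G c).neighborSet (0, x) := by
    intro i hi
    rw [SimpleGraph.mem_neighborSet, adj_cor]
    right
    refine ⟨rfl, by simp, ?_⟩
    simp only
    unfold par
    rw [if_neg]
    omega
  have h2 : (Finset.univ : Finset (Fin 3)).card ≤
      ((HA N M G c).neighborSet (0, x)).ncard := by
    rw [← Set.ncard_coe_finset]
    refine Set.ncard_le_ncard_of_injOn
      (fun i : Fin 3 => ((⟨2 * i.val + 1, by omega⟩ : Fin (2 * M + 1)), x)) ?_ ?_
      (Set.toFinite _)
    · intro i _
      exact h1 i.val i.isLt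
    · intro i _ i' _ h
      have := congrArg (fun p : Fin (2 * M + 1) × Fin N => p.1.val) h
      simp only at this
      exact Fin.ext (by omega)
  simpa using h2

theorem card_one (hM : ∀ x, c x ≤ M) (hM3 : 3 ≤ M) (x : Fin N) :
    nb (HA N M G c) 1 (0, x) = 2 * M - 2 * c x := by
  unfold nb
  have h1 : {y | (HA N M G c).Adj (0, x) y ∧ dg (HA N M G c) y = 1} =
      (fun j => (j, x)) '' {j : Fin (2 * M + 1) | 2 * c x < j.val} := by
    ext ⟨j, y⟩
    simp only [Set.mem_setOf_eq, Set.mem_image, Prod.mk.injEq]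
    rw [adj_cor]
    constructor
    · rintro ⟨⟨h1, h2⟩ | ⟨h1, h2, h3⟩, h4⟩
      · simp only at h1
        have h5 := dg0 G c hM3 y
        have h6 : j = 0 := Fin.ext (by simpa using h1)
        rw [h6] at h4
        omega
      · simp only at h1 h2 h3
        subst h1
        refine ⟨j, ?_, rfl, rfl⟩
        by_contra h7
        by_cases h8 : j.val % 2 = 1
        · rw [dgA G c hM j x h8 (by omega)] at h4
          omega
        · unfold par at h3
          rw [if_pos ⟨by omega, by omega⟩] at h3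
          omega
    · rintro ⟨j', h1, rfl, rfl⟩
      refine ⟨Or.inr ⟨rfl, by simp only; omega, ?_⟩, ?_⟩
      · simp only
        unfold par
        rw [if_neg]
        omega
      · exact dgB G c j' x (by omega) (by omega)
  rw [h1, Set.ncard_image_of_injective _ (fun a b h => (Prod.mk.inj h).1)]
  rw [← Set.ncard_image_of_injective _ (Fin.val_injective (n := 2 * M + 1))]
  have h2 : Fin.val '' {j : Fin (2 * M + 1) | 2 * c x < j.val} =
      ((Finset.Ioc (2 * c x) (2 * M) : Finset ℕ) : Set ℕ) := by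
    ext i
    simp only [Set.mem_image, Set.mem_setOf_eq, Finset.coe_Ioc, Set.mem_Ioc]
    constructor
    · rintro ⟨j, h1, rfl⟩
      exact ⟨h1, by omega⟩
    · rintro ⟨h1, h2⟩
      exact ⟨⟨i, by omega⟩, h1, rfl⟩
  rw [h2, Set.ncard_coe_finset, Nat.card_Ioc]

theorem card_two (hM : ∀ x, c x ≤ M) (hM3 : 3 ≤ M) (x : Fin N) :
    nb (HA N M G c) 2 (0, x) = c x := by
  unfold nb
  have h1 : {y | (HA N M G c).Adj (0, x) y ∧ dg (HA N M G c) y = 2} =
      (fun j => (j, x)) '' {j : Fin (2 * M + 1) | j.val % 2 = 1 ∧ j.val < 2 * c x} := by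
    ext ⟨j, y⟩
    simp only [Set.mem_setOf_eq, Set.mem_image, Prod.mk.injEq]
    rw [adj_cor]
    constructor
    · rintro ⟨⟨h1, h2⟩ | ⟨h1, h2, h3⟩, h4⟩
      · simp only at h1
        have h5 := dg0 G c hM3 y
        have h6 : j = 0 := Fin.ext (by simpa using h1)
        rw [h6] at h4
        omega
      · simp only at h1 h2 h3
        subst h1
        refine ⟨j, ?_, rfl, rfl⟩
        by_contra h7
        rw [dgB G c j x h2 h7] at h4
        omega
    · rintro ⟨j', ⟨h0, h1⟩, rfl, rfl⟩
      refine ⟨Or.inr ⟨rfl, by simp only; omega, ?_⟩, ?_⟩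
      · simp only
        unfold par
        rw [if_neg]
        omega
      · exact dgA G c hM j' x h0 h1
  rw [h1, Set.ncard_image_of_injective _ (fun a b h => (Prod.mk.inj h).1)]
  rw [← Set.ncard_image_of_injective _ (Fin.val_injective (n := 2 * M + 1))]
  have h2 : Fin.val '' {j : Fin (2 * M + 1) | j.val % 2 = 1 ∧ j.val < 2 * c x} =
      (fun i => 2 * i + 1) '' ((Finset.range (c x) : Finset ℕ) : Set ℕ) := by
    ext i
    simp only [Set.mem_image, Set.mem_setOf_eq, Finset.coe_range, Set.mem_Iio]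
    constructor
    · rintro ⟨j, h1, rfl⟩
      exact ⟨j.val / 2, by omega, by omega⟩
    · rintro ⟨k, h1, rfl⟩
      have := hM x
      exact ⟨⟨2 * k + 1, by omega⟩, ⟨by simp only; omega, by simp only; omega⟩, rfl⟩
  rw [h2, Set.ncard_image_of_injective _ (fun a b h => by simpa using h),
    Set.ncard_coe_finset, Finset.card_range]

/-- the three kinds of vertices -/
theorem cases3 (v : Fin (2 * M + 1) × Fin N) :
    v = (0, v.2) ∨ (v.1.val % 2 = 1 ∧ v.1.val < 2 * c v.2) ∨
      (1 ≤ v.1.val ∧ ¬(v.1.val % 2 = 1 ∧ v.1.val < 2 * c v.2)) := by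
  obtain ⟨j, x⟩ := v
  by_cases h : j.val = 0
  · left
    exact Prod.ext (Fin.ext (by simpa using h)) rfl
  · right
    by_cases h2 : j.val % 2 = 1 ∧ j.val < 2 * c x
    · exact Or.inl h2
    · exact Or.inr ⟨by simp only; omega, h2⟩

theorem isG_HA (hM : ∀ x, c x ≤ M) (hM3 : 3 ≤ M) : IsG (HA N M G c) M where
  pos v := by
    obtain h | h | h := cases3 c v
    · rw [h]
      have := dg0 G c hM3 v.2
      omega
    · have := dgA G c hM v.1 v.2 h.1 h.2
      rw [show (v.1, v.2) = v from rfl] at this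
      omega
    · have := dgB G c v.1 v.2 h.1 h.2
      rw [show (v.1, v.2) = v from rfl] at this
      omega
  leaf v hv w hw := by
    obtain h | h | h := cases3 c v
    · rw [h] at hv
      have := dg0 G c hM3 v.2
      omega
    · have := dgA G c hM v.1 v.2 h.1 h.2
      rw [show (v.1, v.2) = v from rfl] at this
      omega
    · rw [show v = (v.1, v.2) from rfl, nbB G c v.1 v.2 h.1 h.2 w] at hw
      rw [hw]
      by_cases h2 : v.1.val % 2 = 0 ∧ v.1.val ≤ 2 * c v.2
      · have h3 : par (c v.2) v.1.val = v.1.val - 1 := by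
          unfold par
          rw [if_pos h2]
        have h4 := h.1
        rw [dgA G c hM _ _ (by simp only; rw [h3]; omega) (by simp only; rw [h3]; omega)]
      · have h3 : par (c v.2) v.1.val = 0 := by
          unfold par
          rw [if_neg h2]
        have h4 := dg0 G c hM3 v.2
        have h5 : (⟨par (c v.2) v.1.val, (par_lt _ _ h.1).trans v.1.isLt⟩ :
            Fin (2 * M + 1)) = 0 := Fin.ext (by simpa using h3)
        rw [h5]
        omega
  mid v hv := by
    obtain h | h | h := cases3 c v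
    · rw [h] at hv
      have := dg0 G c hM3 v.2
      omega
    · obtain ⟨j, x⟩ := v
      simp only at h
      obtain ⟨h1, h2⟩ := h
      have hlt : j.val + 1 < 2 * M + 1 := by
        have := hM x
        omega
      have e1 : dg (HA N M G c) (⟨j.val + 1, hlt⟩, x) = 1 :=
        dgB G c _ x (by simp) (by simp only; omega)
      have e2 := dg0 G c hM3 x
      constructor
      · unfold nb
        have h3 : {y | (HA N M G c).Adj (j, x) y ∧ dg (HA N M G c) y = 1} =
            {(⟨j.val + 1, hlt⟩, x)} := by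
          ext b
          simp only [Set.mem_setOf_eq, Set.mem_singleton_iff]
          rw [nbA G c hM j x h1 h2 b]
          constructor
          · rintro ⟨h4 | h4, h5⟩
            · exact h4
            · rw [h4] at h5
              omega
          · intro h4
            refine ⟨Or.inl h4, ?_⟩
            rw [h4]
            exact e1
        rw [h3, Set.ncard_singleton]
      · have h3 : {y | (HA N M G c).Adj (j, x) y ∧ 3 ≤ dg (HA N M G c) y} = {(0, x)} := by
          ext b
          simp only [Set.mem_setOf_eq, Set.mem_singleton_iff]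
          rw [nbA G c hM j x h1 h2 b]
          constructor
          · rintro ⟨h4 | h4, h5⟩
            · rw [h4, e1] at h5
              omega
            · exact h4
          · intro h4
            refine ⟨Or.inr h4, ?_⟩
            rw [h4]
            exact e2
        rw [h3, Set.ncard_singleton]
    · have := dgB G c v.1 v.2 h.1 h.2
      rw [show (v.1, v.2) = v from rfl] at this
      omega
  cor v hv := by
    obtain h | h | h := cases3 c v
    · rw [h, card_one G c hM hM3 v.2, card_two G c hM hM3 v.2]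
      have := hM v.2
      omega
    · have := dgA G c hM v.1 v.2 h.1 h.2
      rw [show (v.1, v.2) = v from rfl] at this
      omega
    · have := dgB G c v.1 v.2 h.1 h.2
      rw [show (v.1, v.2) = v from rfl] at this
      omega

end main

theorem pf_EX : Y_EX := by
  intro N b hb G c hc
  set M := 2 ^ b - 1 with hMdef
  have h4 : 4 ≤ 2 ^ b := by
    calc 4 = 2 ^ 2 := by norm_num
      _ ≤ 2 ^ b := Nat.pow_le_pow_right (by norm_num) hb
  have hM3 : 3 ≤ M := by omega
  have hM : ∀ x, c x ≤ M := fun x => by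
    have := hc x
    omega
  set ε : Fin (2 * M + 1) × Fin N ≃ Fin ((2 * M + 1) * N) := finProdFinEquiv with hε
  set G' : SimpleGraph (Fin ((2 * M + 1) * N)) := (HA N M G c).comap ε.symm with hG'
  have hadj : ∀ a b, (HA N M G c).Adj a b ↔ G'.Adj (ε a) (ε b) := by
    intro a b
    rw [hG', SimpleGraph.comap_adj, ε.symm_apply_apply, ε.symm_apply_apply]
  have hdg := dg_iso ε (HA N M G c) G' hadj
  have hnb := nb_iso ε (HA N M G c) G' hadj
  have hmem : ∀ x : Fin N, 3 ≤ dg G' (ε (0, x)) := by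
    intro x
    rw [hdg]
    exact dg0 G c hM3 x
  have hbij : Function.Bijective
      (fun x : Fin N => (⟨ε (0, x), hmem x⟩ : {x // 3 ≤ dg G' x})) := by
    constructor
    · intro x y h
      have h1 := congrArg Subtype.val h
      simp only at h1
      exact (Prod.mk.inj (ε.injective h1)).2
    · rintro ⟨w, hw⟩
      obtain ⟨v, rfl⟩ := ε.surjective w
      rw [hdg] at hw
      refine ⟨v.2, Subtype.ext ?_⟩
      simp only
      obtain h | h | h := cases3 c v
      · rw [← h]
      · have := dgA G c hM v.1 v.2 h.1 h.2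
        rw [show (v.1, v.2) = v from rfl] at this
        omega
      · have := dgB G c v.1 v.2 h.1 h.2
        rw [show (v.1, v.2) = v from rfl] at this
        omega
  refine ⟨G', Equiv.ofBijective _ hbij, isG_iso ε (HA N M G c) G' hadj M
    (isG_HA G c hM hM3), ?_, ?_⟩
  · intro x y
    simp only [Equiv.ofBijective_apply]
    rw [← hadj, adj_cor]
    constructor
    · intro h
      exact Or.inl ⟨by simp, h⟩
    · rintro (h | h)
      · exact h.2
      · have := h.2.1
        simp at this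
  · intro x
    simp only [Equiv.ofBijective_apply]
    rw [hnb]
    exact card_two G c hM hM3 x

end Pool.Agent.H28.PU
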